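import Mathlib

/-!
Counting solutions of `(-1)^v * centralBinom v = c` in `ZMod p` for `2 v < p` by a gap argument.
-/

namespace Pool.Agent.Lib.MP_8dd8b0_nt

open Finset Polynomial

variable {p : ℕ}

/-- signed central binomial coefficient modulo `p` -/
def sb (p v : ℕ) : ZMod p := (-1) ^ v * (Nat.centralBinom v : ZMod p)

lemma sb_succ (v : ℕ) : ((v : ZMod p) + 1) * sb p (v + 1) = (-2) * (2 * v + 1) * sb p v := by
  have h := Nat.succ_mul_centralBinom_succ v
  have h2 : ((v : ZMod p) + 1) * (Nat.centralBinom (v + 1) : ZMod p) =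
      2 * (2 * v + 1) * (Nat.centralBinom v : ZMod p) := by exact_mod_cast congrArg (Nat.cast (R := ZMod p)) h
  unfold sb
  rw [pow_succ]
  linear_combination (-(-1) ^ v) * h2

lemma sb_add (v d : ℕ) : sb p (v + d) * ∏ i ∈ range d, ((v : ZMod p) + i + 1) =
    sb p v * ∏ i ∈ range d, ((-2) * (2 * ((v : ZMod p) + i) + 1)) := by
  induction d with
  | zero => simp
  | succ d ih =>
    rw [prod_range_succ, prod_range_succ, ← add_assoc]
    have h := sb_succ (p := p) (v + d)
    push_cast at h
    calc sb p (v + d + 1) * ((∏ i ∈ range d, ((v : ZMod p) + i + 1)) * ((v : ZMod p) + d + 1))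
        = (((v : ZMod p) + d + 1) * sb p (v + d + 1)) * ∏ i ∈ range d, ((v : ZMod p) + i + 1) := by ring
      _ = ((-2) * (2 * ((v : ZMod p) + d) + 1) * sb p (v + d)) * ∏ i ∈ range d, ((v : ZMod p) + i + 1) := by
          rw [h]
      _ = (-2) * (2 * ((v : ZMod p) + d) + 1) * (sb p (v + d) * ∏ i ∈ range d, ((v : ZMod p) + i + 1)) := by ring
      _ = _ := by rw [ih]; ring

lemma sb_ne_zero [hp : Fact p.Prime] {v : ℕ} (hv : 2 * v < p) : sb p v ≠ 0 := by
  unfold sb
  refine mul_ne_zero (pow_ne_zero _ (neg_ne_zero.mpr one_ne_zero)) ?_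
  rw [Ne, ZMod.natCast_eq_zero_iff]
  intro h
  have h1 : p ∣ (2 * v).factorial := by
    have h2 := Nat.choose_mul_factorial_mul_factorial (n := 2 * v) (k := v) (by omega)
    rw [← h2]
    rw [Nat.centralBinom] at h
    exact (h.mul_right _).mul_right _
  rw [hp.out.dvd_factorial] at h1
  omega

/-- the polynomial whose roots are the `v` with `sb v = sb (v+d)` -/
noncomputable def gapPoly (p d : ℕ) : (ZMod p)[X] :=
  (∏ i ∈ range d, (C (-2) * (C 2 * (X + C (i : ZMod p)) + 1))) - ∏ i ∈ range d, (X + C (i : ZMod p) + 1)

lemma gapPoly_natDegree (d : ℕ) : (gapPoly p d).natDegree ≤ d := by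
  unfold gapPoly
  refine (natDegree_sub_le _ _).trans (max_le ?_ ?_)
  · refine (natDegree_prod_le _ _).trans ?_
    calc ∑ i ∈ range d, (C (-2) * (C 2 * (X + C (i : ZMod p)) + 1)).natDegree
        ≤ ∑ i ∈ range d, 1 := by
          apply sum_le_sum
          intro i _
          compute_degree
      _ = d := by simp
  · refine (natDegree_prod_le _ _).trans ?_
    calc ∑ i ∈ range d, (X + C (i : ZMod p) + 1).natDegree ≤ ∑ i ∈ range d, 1 := by
          apply sum_le_sum
          intro i _
          compute_degree
      _ = d := by simp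

lemma gapPoly_eval (d : ℕ) (x : ZMod p) : (gapPoly p d).eval x =
    (∏ i ∈ range d, ((-2) * (2 * (x + i) + 1))) - ∏ i ∈ range d, (x + i + 1) := by
  unfold gapPoly
  simp [eval_prod]

lemma gapPoly_ne_zero [hp : Fact p.Prime] {d : ℕ} (hd : 1 ≤ d) (hdp : 2 * d < p) : gapPoly p d ≠ 0 := by
  intro h
  have h2 : (2 : ZMod p) ≠ 0 := by
    have : ((2 : ℕ) : ZMod p) ≠ 0 := by
      rw [Ne, ZMod.natCast_eq_zero_iff]
      intro h3
      have := Nat.le_of_dvd (by norm_num) h3
      omega
    exact_mod_cast this
  have h1 : (gapPoly p d).eval (-(1 / 2)) = 0 := by rw [h]; simp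
  rw [gapPoly_eval] at h1
  have h3 : ∏ i ∈ range d, ((-2) * (2 * (-(1 / 2 : ZMod p) + i) + 1)) = 0 := by
    apply prod_eq_zero (i := 0) (mem_range.mpr hd)
    field_simp
    simp
  rw [h3, zero_sub, neg_eq_zero, prod_eq_zero_iff] at h1
  obtain ⟨i, hi, h4⟩ := h1
  rw [mem_range] at hi
  have h5 : ((2 * i + 1 : ℕ) : ZMod p) = 0 := by
    push_cast
    have : (2 : ZMod p) * (-(1 / 2) + i + 1) = 0 := by rw [h4, mul_zero]
    field_simp at this
    linear_combination this
  rw [ZMod.natCast_eq_zero_iff] at h5
  have := Nat.le_of_dvd (by omega) h5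
  omega

/-- the solution set -/
def sols (p : ℕ) (c : ZMod p) : Finset ℕ := (range ((p + 1) / 2)).filter (fun v => sb p v = c)

lemma card_gap [hp : Fact p.Prime] (c : ZMod p) {d : ℕ} (hd : 1 ≤ d) :
    ((sols p c).filter (fun v => v + d ∈ sols p c)).card ≤ d := by
  classical
  by_cases hdp : 2 * d < p
  · have hinj : Set.InjOn (fun v : ℕ => (v : ZMod p)) ((sols p c).filter (fun v => v + d ∈ sols p c)) := by
      intro a ha b hb hab
      simp only [coe_filter, sols, mem_filter, mem_range, Set.mem_ofPred_eq] at ha hb
      have h1 := (ZMod.natCast_eq_natCast_iff' a b p).mp hab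
      rwa [Nat.mod_eq_of_lt (by omega), Nat.mod_eq_of_lt (by omega)] at h1
    calc ((sols p c).filter (fun v => v + d ∈ sols p c)).card
        = (((sols p c).filter (fun v => v + d ∈ sols p c)).image (fun v : ℕ => (v : ZMod p))).card :=
          (card_image_of_injOn hinj).symm
      _ ≤ (gapPoly p d).roots.toFinset.card := by
          apply card_le_card
          intro x hx
          rw [mem_image] at hx
          obtain ⟨v, hv, rfl⟩ := hx
          simp only [sols, mem_filter, mem_range] at hv
          obtain ⟨⟨hv1, hv2⟩, hv3, hv4⟩ := hv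
          rw [Multiset.mem_toFinset, mem_roots (gapPoly_ne_zero hd hdp), IsRoot.def, gapPoly_eval]
          have h1 := sb_add (p := p) v d
          rw [hv4, hv2] at h1
          have hc : c ≠ 0 := by
            rw [← hv2]; exact sb_ne_zero (by omega)
          have h2 := mul_left_cancel₀ hc h1
          rw [h2]; ring
      _ ≤ Multiset.card (gapPoly p d).roots := Multiset.toFinset_card_le _
      _ ≤ (gapPoly p d).natDegree := card_roots' _
      _ ≤ d := gapPoly_natDegree d
  · have : ((sols p c).filter (fun v => v + d ∈ sols p c)) = ∅ := by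
      rw [filter_eq_empty_iff]
      intro v hv h
      simp only [sols, mem_filter, mem_range] at hv h
      omega
    rw [this]; simp

/-- Main counting lemma. -/
lemma card_sols [hp : Fact p.Prime] (c : ZMod p) {D : ℕ} (hD : 1 ≤ D) :
    (sols p c).card ≤ D * D + (p + 1) / 2 / D + 1 := by
  classical
  set A := (sols p c).filter (fun v => ∃ d ∈ Icc 1 D, v + d ∈ sols p c) with hA
  set F := (sols p c).filter (fun v => ¬ ∃ d ∈ Icc 1 D, v + d ∈ sols p c) with hF
  have h0 : (sols p c).card = A.card + F.card := (card_filter_add_card_filter_not _).symm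
  have hAc : A.card ≤ D * D := by
    calc A.card ≤ ((Icc 1 D).biUnion (fun d => (sols p c).filter (fun v => v + d ∈ sols p c))).card := by
          apply card_le_card
          intro v hv
          rw [hA, mem_filter] at hv
          obtain ⟨hv1, d, hd, hv2⟩ := hv
          rw [mem_biUnion]
          exact ⟨d, hd, mem_filter.mpr ⟨hv1, hv2⟩⟩
      _ ≤ ∑ d ∈ Icc 1 D, ((sols p c).filter (fun v => v + d ∈ sols p c)).card := card_biUnion_le
      _ ≤ ∑ d ∈ Icc 1 D, D := by
          apply sum_le_sum
          intro d hd
          rw [mem_Icc] at hd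
          exact (card_gap c hd.1).trans hd.2
      _ = D * D := by simp
  have hFc : F.card ≤ (p + 1) / 2 / D + 1 := by
    calc F.card = (F.image (fun v => v / D)).card := by
          rw [card_image_of_injOn]
          intro a ha b hb hab
          simp only [hF, coe_filter, Set.mem_ofPred_eq] at ha hb
          simp only at hab
          by_contra hne
          rcases Nat.lt_or_gt_of_ne hne with hlt | hlt
          · apply ha.2
            refine ⟨b - a, ?_, ?_⟩
            · rw [mem_Icc]
              have h1 := Nat.div_add_mod a D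
              have h2 := Nat.div_add_mod b D
              have h3 := Nat.mod_lt a hD
              have h4 := Nat.mod_lt b hD
              rw [hab] at h1
              constructor <;> omega
            · rw [show a + (b - a) = b by omega]; exact hb.1
          · apply hb.2
            refine ⟨a - b, ?_, ?_⟩
            · rw [mem_Icc]
              have h1 := Nat.div_add_mod a D
              have h2 := Nat.div_add_mod b D
              have h3 := Nat.mod_lt a hD
              have h4 := Nat.mod_lt b hD
              rw [hab] at h1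
              constructor <;> omega
            · rw [show b + (a - b) = a by omega]; exact ha.1
      _ ≤ (range ((p + 1) / 2 / D + 1)).card := by
          apply card_le_card
          intro x hx
          rw [mem_image] at hx
          obtain ⟨v, hv, rfl⟩ := hx
          simp only [hF, sols, mem_filter, mem_range] at hv
          rw [mem_range]
          have : v / D ≤ (p + 1) / 2 / D := Nat.div_le_div_right hv.1.1.le
          omega
      _ = _ := card_range _
  omega

end Pool.Agent.Lib.MP_8dd8b0_nt
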