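import Pool.Agent.Lib.MP_8dd8b0_nt.Gap

/-!
Consequences of Lucas' theorem for signed central binomial coefficients.
-/

namespace Pool.Agent.Lib.MP_8dd8b0_nt

open Finset

variable {p : ℕ}

/-- `(-1)^k * C(p-1,k) = 1` modulo `p`. -/
lemma choose_pred [hp : Fact p.Prime] {k : ℕ} (hk : k ≤ p - 1) :
    ((Nat.choose (p - 1) k : ℕ) : ZMod p) = (-1) ^ k := by
  induction k with
  | zero => simp
  | succ k ih =>
    have hp2 := hp.out.two_le
    have h1 : Nat.choose p (k + 1) = Nat.choose (p - 1) k + Nat.choose (p - 1) (k + 1) := by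
      obtain ⟨m, rfl⟩ : ∃ m, p = m + 1 := ⟨p - 1, by omega⟩
      simp [Nat.choose_succ_succ]
    have h2 : ((Nat.choose p (k + 1) : ℕ) : ZMod p) = 0 := by
      rw [ZMod.natCast_eq_zero_iff]
      exact hp.out.dvd_choose_self (by omega) (by omega)
    rw [h1] at h2
    push_cast at h2
    rw [ih (by omega)] at h2
    rw [pow_succ]
    linear_combination h2

lemma sb_half [hp : Fact p.Prime] (hodd : Odd p) : sb p ((p - 1) / 2) = 1 := by
  obtain ⟨m, rfl⟩ := hodd
  unfold sb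
  have h1 : (2 * m + 1 - 1) / 2 = m := by omega
  rw [h1, Nat.centralBinom]
  have h2 := choose_pred (p := 2 * m + 1) (k := m) (by omega)
  rw [show 2 * m + 1 - 1 = 2 * m by omega] at h2
  rw [h2, ← pow_add]
  exact Even.neg_one_pow ⟨m, rfl⟩

/-- one step of Lucas for `sb` -/
lemma sb_split [hp : Fact p.Prime] (hodd : Odd p) {N : ℕ} (hN : sb p N ≠ 0) :
    2 * (N % p) < p ∧ sb p N = sb p (N / p) * sb p (N % p) := by
  have hpos := hp.out.pos
  have hL := Choose.choose_modEq_choose_mod_mul_choose_div_nat (p := p) (n := 2 * N) (k := N)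
  rw [← ZMod.natCast_eq_natCast_iff] at hL
  have hdm := Nat.div_add_mod N p
  have hml := Nat.mod_lt N hpos
  have h2v : 2 * (N % p) < p := by
    by_contra hcon
    push Not at hcon
    have h1 : (2 * N) % p = 2 * (N % p) - p := by
      have : 2 * N = (2 * (N % p) - p) + p * (2 * (N / p) + 1) := by
        have h3 : p * (2 * (N / p) + 1) = 2 * (p * (N / p)) + p := by ring
        rw [h3]
        omega
      rw [this, Nat.add_mul_mod_self_left, Nat.mod_eq_of_lt (by omega)]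
    have hz : Nat.choose (2 * (N % p) - p) (N % p) = 0 := Nat.choose_eq_zero_of_lt (by omega)
    rw [h1, hz, zero_mul, Nat.cast_zero] at hL
    apply hN
    unfold sb
    rw [Nat.centralBinom, hL, mul_zero]
  refine ⟨h2v, ?_⟩
  have e : 2 * N = 2 * (N % p) + p * (2 * (N / p)) := by
    have h3 : p * (2 * (N / p)) = 2 * (p * (N / p)) := by ring
    rw [h3]; omega
  have h1 : (2 * N) % p = 2 * (N % p) := by
    rw [e, Nat.add_mul_mod_self_left, Nat.mod_eq_of_lt h2v]
  have h2 : (2 * N) / p = 2 * (N / p) := by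
    rw [e, Nat.add_mul_div_left _ _ hpos, Nat.div_eq_of_lt h2v, zero_add]
  rw [h1, h2] at hL
  unfold sb
  rw [Nat.centralBinom, hL, Nat.centralBinom, Nat.centralBinom]
  have hsign : ((-1 : ZMod p)) ^ N = (-1) ^ (N / p) * (-1) ^ (N % p) := by
    conv_lhs => rw [← hdm]
    rw [pow_add, pow_mul, hodd.neg_one_pow]
  rw [hsign]
  push_cast
  ring

/-- from the congruence modulo `p q` to the condition modulo `p` -/
lemma sb_of_star {p q : ℕ} (hp : p.Prime) (hop : Odd p) (hoq : Odd q) (hq0 : 0 < q)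
    (h : ((Nat.choose (p * q - 1) ((p * q - 1) / 2) : ℕ) : ℤ) ≡
      (-1 : ℤ) ^ ((p * q - 1) / 2) [ZMOD ((p * q : ℕ) : ℤ)]) :
    sb p ((q - 1) / 2) = 1 := by
  have : Fact p.Prime := ⟨hp⟩
  obtain ⟨a, rfl⟩ := hop
  obtain ⟨b, rfl⟩ := hoq
  have e1 : (2 * b + 1 - 1) / 2 = b := by omega
  have e2 : ((2 * a + 1) * (2 * b + 1) - 1) / 2 = (2 * a + 1) * b + a := by
    have : (2 * a + 1) * (2 * b + 1) = 2 * ((2 * a + 1) * b + a) + 1 := by ring
    omega
  have e3 : (2 * a + 1) * (2 * b + 1) - 1 = 2 * ((2 * a + 1) * b + a) := by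
    have : (2 * a + 1) * (2 * b + 1) = 2 * ((2 * a + 1) * b + a) + 1 := by ring
    omega
  rw [e1]
  have h1 : ((Nat.choose ((2 * a + 1) * (2 * b + 1) - 1) (((2 * a + 1) * (2 * b + 1) - 1) / 2) : ℕ) : ℤ) ≡
      (-1 : ℤ) ^ (((2 * a + 1) * (2 * b + 1) - 1) / 2) [ZMOD ((2 * a + 1 : ℕ) : ℤ)] := by
    refine Int.ModEq.of_mul_right ((2 * b + 1 : ℕ) : ℤ) ?_
    have : (((2 * a + 1 : ℕ) : ℤ)) * ((2 * b + 1 : ℕ) : ℤ) = (((2 * a + 1) * (2 * b + 1) : ℕ) : ℤ) := by
      push_cast; ring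
    rw [this]; exact h
  rw [e2, e3] at h1
  have h2 := (ZMod.intCast_eq_intCast_iff _ _ _).mpr h1
  push_cast at h2
  set N := (2 * a + 1) * b + a with hN
  have hs : sb (2 * a + 1) N = 1 := by
    unfold sb
    rw [Nat.centralBinom, h2, ← pow_add]
    exact Even.neg_one_pow ⟨N, rfl⟩
  have h3 := sb_split (p := 2 * a + 1) ⟨a, rfl⟩ (N := N) (by rw [hs]; exact one_ne_zero)
  have hd : N / (2 * a + 1) = b := by
    rw [hN, add_comm, Nat.add_mul_div_left _ _ (by omega), Nat.div_eq_of_lt (by omega), zero_add]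
  have hm : N % (2 * a + 1) = a := by
    rw [hN, add_comm, Nat.add_mul_mod_self_left, Nat.mod_eq_of_lt (by omega)]
  rw [hd, hm, hs] at h3
  have h4 : sb (2 * a + 1) a = 1 := by
    have := sb_half (p := 2 * a + 1) ⟨a, rfl⟩
    rwa [show (2 * a + 1 - 1) / 2 = a by omega] at this
  rw [h4, mul_one] at h3
  exact h3.2.symm

end Pool.Agent.Lib.MP_8dd8b0_nt
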